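import Pool.Agent.OMF.Stmts

/-! Squad OMF, row STR: almost all points on one cubic. -/

namespace Pool.Agent.OMF.H24

open Finset Pool.Agent.GTO
open scoped Classical

/-- row STR -/
theorem str (_hbas : BasStmt) (hmsb : MsbStmt) (hunc : UncStmt) (hcon : ConStmt)
    (hrci : RciStmt) : StrStmt := by
  intro ι _ a hPI hSpn N k μ E hN hk hkN hn hμ hE h1 h2
  have hsum := hmsb ι a hPI hSpn N k (by omega) hkN
  generalize hS : 330 * N * T2 a = S at hsum h1 h2
  -- the points with a large defect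
  set Hv : Finset ι := (univ \ UU a k).filter (fun x => μ < (Miss a N x).card) with hHv
  have hHvc : μ * Hv.card ≤ S := by
    calc μ * Hv.card = ∑ _x ∈ Hv, μ := by rw [sum_const, smul_eq_mul, mul_comm]
      _ ≤ ∑ x ∈ Hv, (Miss a N x).card :=
        sum_le_sum fun x hx => le_of_lt (mem_filter.1 hx).2
      _ ≤ ∑ x ∈ univ \ UU a k, (Miss a N x).card :=
        sum_le_sum_of_subset (filter_subset _ _)
      _ ≤ S := hsum
  have hmiss : ∀ x, x ∉ UU a k → x ∉ Hv → (Miss a N x).card ≤ μ := by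
    intro x hx hx'
    by_contra hlt
    exact hx' (mem_filter.2 ⟨mem_sdiff.2 ⟨mem_univ _, hx⟩, not_le.1 hlt⟩)
  -- a typical point
  obtain ⟨x, hxU, hxH, hxE⟩ : ∃ x, x ∉ UU a k ∧ x ∉ Hv ∧ x ∉ EX a k := by
    by_contra hno
    have hsub : univ \ UU a k ⊆ Hv ∪ EX a k := by
      intro x hx
      have hxU := (mem_sdiff.1 hx).2
      by_contra hx'
      rw [mem_union, not_or] at hx'
      exact hno ⟨x, hxU, hx'.1, hx'.2⟩
    have hc : (univ \ UU a k).card ≤ Hv.card + E :=
      le_trans (card_le_card hsub) (le_trans (card_union_le _ _) (Nat.add_le_add_left hE _))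
    have hc2 : μ * (univ \ UU a k).card ≤ μ * Hv.card + μ * E := by
      rw [← mul_add]
      exact Nat.mul_le_mul_left _ hc
    omega
  obtain ⟨Bd, hBd, hcase⟩ := hunc ι a hPI N k x hN hk hkN hn hxU hxE
  have hmx := hmiss x hxU hxH
  have hBd' : Bd.card ≤ μ + 2 * E + 1 := by omega
  rcases hcase with ⟨c, hc0, hcB, -⟩ | ⟨e, hNL, hke, hxe, hcard, -⟩
  · refine ⟨c, hc0, ?_⟩
    have hsub : (univ.filter fun i => cub c (a i) ≠ 0) ⊆ Bd := by
      intro i hi
      by_contra hiB
      exact (mem_filter.1 hi).2 (mem_filter.1 (hcB i hiB)).2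
    have := card_le_card hsub
    omega
  · -- the points of the conic on rich lines are exceptional
    have hZU : ∀ i ∈ Zq a e, i ∈ UU a k → i ∈ EX a k := by
      intro i hi hiU
      obtain ⟨ℓ, hℓ, hkℓ, hiℓ⟩ := (mem_filter.1 hiU).2
      have hne : ℓ ≠ Zq a e := hrci.2.2.2 ι a hPI e ℓ hℓ hNL (by omega)
      refine mem_filter.2 ⟨mem_univ _, ℓ, mem_filter.2 ⟨mem_univ _, hkℓ, Or.inl hℓ⟩, Zq a e,
        mem_filter.2 ⟨mem_univ _, hke, Or.inr (Or.inl ⟨e, hNL, rfl⟩)⟩, hne, hiℓ, hi⟩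
    set G : Finset ι := Zq a e \ (Hv ∪ EX a k) with hG
    have hGc : (Zq a e).card ≤ G.card + (Hv.card + E) := by
      have h3 : (Zq a e).card ≤ G.card + (Hv ∪ EX a k).card := by
        have hsub : Zq a e ⊆ G ∪ (Hv ∪ EX a k) := by
          intro i hi
          by_cases hi' : i ∈ Hv ∪ EX a k
          · exact mem_union_right _ hi'
          · exact mem_union_left _ (mem_sdiff.2 ⟨hi, hi'⟩)
        exact le_trans (card_le_card hsub) (card_union_le _ _)
      have h4 : (Hv ∪ EX a k).card ≤ Hv.card + E :=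
        le_trans (card_union_le _ _) (Nat.add_le_add_left hE _)
      omega
    have hG3 : 3 ≤ G.card := by
      by_contra hlt
      have hG2 : G.card ≤ 2 := by omega
      have h5 : Fintype.card ι ≤ 2 * (2 + (Hv.card + E)) + (μ + 2 * E + 1) := by omega
      have h6 : μ * Fintype.card ι ≤ μ * (2 * (2 + (Hv.card + E)) + (μ + 2 * E + 1)) :=
        Nat.mul_le_mul_left _ h5
      have h7 : μ * (2 * (2 + (Hv.card + E)) + (μ + 2 * E + 1)) =
          2 * (μ * Hv.card) + μ * (μ + 4 * E + 5) := by ring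
      have h8 : μ * (μ + 4 * E + 7) = μ * (μ + 4 * E + 5) + 2 * μ := by ring
      omega
    obtain ⟨G', hG'sub, hG'c⟩ := exists_subset_card_eq hG3
    let f : Fin 3 ≃ G' := (Fintype.equivFinOfCardEq (by rw [Fintype.card_coe]; exact hG'c)).symm
    have hf : ∀ i, (f i : ι) ∈ G := fun i => hG'sub (f i).2
    obtain ⟨c, hc0, hcc⟩ := hcon ι a hPI N k μ e (fun i => (f i : ι)) hN hk hkN hn hNL hke
      (fun i j hij => f.injective (Subtype.ext hij))
      (fun i => by
        have h9 := mem_sdiff.1 (hf i)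
        have h10 := h9.2
        rw [mem_union, not_or] at h10
        have hU : (f i : ι) ∉ UU a k := fun h => h10.2 (hZU _ h9.1 h)
        exact ⟨h9.1, hU, h10.2, hmiss _ hU h10.1⟩)
    refine ⟨c, hc0, ?_⟩
    omega

end Pool.Agent.OMF.H24
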